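import Mathlib
import Pool.Agent.N477.Dens

set_option autoImplicit false

open Filter Topology

namespace Pool.Agent.Results.MP_c36e95_co.LowerNoShift

open Classical in
/-- the lower density `liminf_N |A ∩ {1,…,N}| / N` of a set of natural numbers -/
noncomputable def lowerDensity (A : Set ℕ) : ℝ :=
  liminf (fun N : ℕ => (((Finset.Icc 1 N).filter (fun a => a ∈ A)).card : ℝ) / N) atTop

/-- `S_{m,ℓ}(B) = {m b₁ + ℓ b₂ : b₁, b₂ ∈ B, b₁ ≠ b₂}` -/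
def S (m ℓ : ℕ) (B : Set ℕ) : Set ℕ :=
  {x | ∃ b₁ ∈ B, ∃ b₂ ∈ B, b₁ ≠ b₂ ∧ x = m * b₁ + ℓ * b₂}

/-- For distinct positive integers `ℓ, m`, every set of natural numbers of lower density greater
than `1 - 1 / (2 (ℓ + m))` contains `S_{m,ℓ}(B)` for some infinite set `B` of positive integers. -/
theorem result (m ℓ : ℕ) (hm : 1 ≤ m) (hℓ : 1 ≤ ℓ) (_hne : ℓ ≠ m) (A : Set ℕ)
    (hA : 1 - 1 / (2 * ((ℓ : ℝ) + m)) < lowerDensity A) :
    ∃ B : Set ℕ, B.Infinite ∧ (∀ b ∈ B, 1 ≤ b) ∧ S m ℓ B ⊆ A := by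
  classical
  obtain ⟨δ, hδ1, hδ2⟩ := exists_between hA
  have hev : ∀ᶠ N : ℕ in atTop, δ < (Pool.Agent.N477.cI A N : ℝ) / N := by
    have hbdd : IsBoundedUnder (· ≥ ·) atTop
        (fun N : ℕ => (((Finset.Icc 1 N).filter (fun a => a ∈ A)).card : ℝ) / N) :=
      isBoundedUnder_of ⟨0, fun N => by positivity⟩
    refine (eventually_lt_of_lt_liminf hδ2 hbdd).mono (fun N hN => ?_)
    exact hN
  obtain ⟨B, s, hB, hpos, hs, h⟩ := Pool.Agent.N477.lower_case ℓ m (ℓ + m) hm hℓ (by omega)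
    dvd_rfl A δ
    (by
      have e : 1 - 1 / (2 * ((ℓ + m : ℕ) : ℝ)) = 1 - 1 / (2 * ((ℓ : ℝ) + m)) := by push_cast; rfl
      rw [e]
      exact hδ1) hev
  obtain ⟨B', hB', hpos', h'⟩ := Pool.Agent.N477.absorb_shift ℓ m A B s hs hB hpos h
  refine ⟨B', hB', hpos', ?_⟩
  rintro x ⟨b₁, h1, b₂, h2, hne, rfl⟩
  exact h' b₁ h1 b₂ h2 hne

end Pool.Agent.Results.MP_c36e95_co.LowerNoShift
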